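import Pool.Agent.Work.MP_cacfbf_al.Core

set_option autoImplicit false
set_option linter.unusedSimpArgs false

/-!
# A matrix algebra of order two inside the restricted enveloping algebra of `gl_2(F_3)`
-/

namespace Pool.Agent.Results.MP_cacfbf_al.MatricesInGlTwo

open Pool.Agent.Work.MP_cacfbf_al

universe u v

attribute [local instance 100] LieRing.ofAssociativeRing
attribute [local instance 100] LieAlgebra.ofAssociativeAlgebra

/-- Jacobson's sum `s_1(x, y) + ... + s_(p-1)(x, y)` with
`s_i(x, y) = -(1 / i) * ∑ [w 1, [w 2, ..., [w (p - 1), y]]]`, the sum over the words `w` of length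
`p - 1` in the letters `x` and `y` in which `x` occurs `i` times (the word without `x` contributes
`0`). -/
def jacobson (p : ℕ) (F : Type u) [Field F] {L : Type v} [LieRing L] [LieAlgebra F L] (x y : L) : L :=
  ∑ w : Fin (p - 1) → Bool, (-((Finset.univ.filter fun i => w i = true).card : F)⁻¹) •
    (List.ofFn fun i => LieAlgebra.ad F L (if w i = true then x else y)).prod y

/-- Jacobson's axioms: `f` is a `p`-mapping `x ↦ x^[p]`, so `L` with `f` is a restricted Lie
algebra. -/
structure IsPMapping (p : ℕ) (F : Type u) [Field F] (L : Type v) [LieRing L] [LieAlgebra F L]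
    (f : L → L) : Prop where
  smul : ∀ (a : F) (x : L), f (a • x) = a ^ p • f x
  ad : ∀ x y : L, ⁅f x, y⁆ = (LieAlgebra.ad F L x ^ p) y
  add : ∀ x y : L, f (x + y) = f x + f y + jacobson p F x y

/-- The restricted enveloping algebra: the quotient of the universal enveloping algebra by the ideal
generated by all `x ^ p - x^[p]`. -/
abbrev Restricted (p : ℕ) (F : Type u) [Field F] {L : Type v} [LieRing L] [LieAlgebra F L]
    (f : L → L) :=
  RingQuot (fun a b : UniversalEnvelopingAlgebra F L =>
    ∃ x : L, a = UniversalEnvelopingAlgebra.ι F x ^ p ∧ b = UniversalEnvelopingAlgebra.ι F (f x))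

/-- The value of the standard polynomial of degree `m`. -/
def standard {A : Type u} [Ring A] (m : ℕ) (r : Fin m → A) : A :=
  ∑ σ : Equiv.Perm (Fin m), ((Equiv.Perm.sign σ : ℤˣ) : ℤ) • (List.ofFn fun i => r (σ i)).prod

/-- The subalgebra `R` satisfies a power of the standard polynomial of degree `m`. -/
def SatisfiesPower {F : Type u} [Field F] {A : Type v} [Ring A] [Algebra F A]
    (R : NonUnitalSubalgebra F A) (m : ℕ) : Prop :=
  ∃ t : ℕ, 1 ≤ t ∧ ∀ r : Fin m → A, (∀ i, r i ∈ R) → standard m r ^ t = 0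

/-- The subalgebra `R` satisfies a nontrivial polynomial identity. -/
def IsPI {F : Type u} [Field F] {A : Type v} [Ring A] [Algebra F A]
    (R : NonUnitalSubalgebra F A) : Prop :=
  ∃ m : ℕ, ∃ g : FreeAlgebra F (Fin m), g ≠ 0 ∧
    ∀ r : Fin m → A, (∀ i, r i ∈ R) → FreeAlgebra.lift F r g = 0

/-- The Lie algebra of all matrices of order two over the field of three elements, with the
commutator as bracket. -/
abbrev Gl : Type := Matrix (Fin 2) (Fin 2) (ZMod 3)

/-- The Lie bracket `x * y - y * x`. -/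
instance glLieRing : LieRing Gl := LieRing.ofAssociativeRing

/-- The Lie algebra structure over the field of three elements. -/
instance glLieAlgebra : LieAlgebra (ZMod 3) Gl := LieAlgebra.ofAssociativeAlgebra

/-- The cube of matrices. -/
abbrev cube (x : Gl) : Gl := x ^ 3

/-- The restricted enveloping algebra of `Gl` with the cube as 3-mapping. -/
def U : Type := Restricted 3 (ZMod 3) cube

instance ringU : Ring U := RingQuot.instRing _

instance algebraU : Algebra (ZMod 3) U := RingQuot.instAlgebra _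

/-- `R` is isomorphic to the ring of all matrices of order two over the field of three elements. -/
def IsMatrixRing (R : NonUnitalSubalgebra (ZMod 3) U) : Prop :=
  Nonempty (R ≃+* Matrix (Fin 2) (Fin 2) (ZMod 3))

theorem jacobson_three {L : Type v} [LieRing L] [LieAlgebra (ZMod 3) L] (x y : L) :
    jacobson 3 (ZMod 3) x y = ⁅x, ⁅x, y⁆⁆ + ⁅y, ⁅y, x⁆⁆ := by
  have h : ∀ (g : (Fin 2 → Bool) → L), ∑ w, g w = g ![true, true] + g ![true, false] + g ![false, true] + g ![false, false] := by
    intro g
    have hu : (Finset.univ : Finset (Fin 2 → Bool)) = {![true, true], ![true, false], ![false, true], ![false, false]} := by decide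
    rw [hu, Finset.sum_insert (by decide), Finset.sum_insert (by decide), Finset.sum_insert (by decide), Finset.sum_singleton]
    abel
  have c1 : (Finset.univ.filter fun i => (![true, true] : Fin 2 → Bool) i = true).card = 2 := by decide
  have c2 : (Finset.univ.filter fun i => (![true, false] : Fin 2 → Bool) i = true).card = 1 := by decide
  have c3 : (Finset.univ.filter fun i => (![false, true] : Fin 2 → Bool) i = true).card = 1 := by decide
  have c4 : (Finset.univ.filter fun i => (![false, false] : Fin 2 → Bool) i = true).card = 0 := by decide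
  have d1 : -((2 : ℕ) : ZMod 3)⁻¹ = 1 := by
    rw [inv_eq_of_mul_eq_one_right (show ((2 : ℕ) : ZMod 3) * 2 = 1 by decide)]
    decide
  have d2 : -((1 : ℕ) : ZMod 3)⁻¹ = -1 := by simp
  show ∑ w : Fin 2 → Bool, (-((Finset.univ.filter fun i => w i = true).card : ZMod 3)⁻¹) •
    (List.ofFn fun i => LieAlgebra.ad (ZMod 3) L (if w i = true then x else y)).prod y = _
  have e : ∀ w : Fin 2 → Bool,
      (List.ofFn fun i => LieAlgebra.ad (ZMod 3) L (if w i = true then x else y)).prod y =
        ⁅(if w 0 = true then x else y), ⁅(if w 1 = true then x else y), y⁆⁆ := by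
    intro w
    rw [List.ofFn_succ, List.ofFn_succ, List.ofFn_zero, List.prod_cons, List.prod_cons,
      List.prod_nil, mul_one, Module.End.mul_apply, LieAlgebra.ad_apply, LieAlgebra.ad_apply]
    rfl
  rw [h, c1, c2, c3, c4, d1, d2, e, e, e, e]
  show (1 : ZMod 3) • ⁅x, ⁅x, y⁆⁆ + (-1 : ZMod 3) • ⁅x, ⁅y, y⁆⁆ + (-1 : ZMod 3) • ⁅y, ⁅x, y⁆⁆ +
    (-(((0 : ℕ) : ZMod 3))⁻¹) • ⁅y, ⁅y, y⁆⁆ = _
  rw [lie_self, lie_zero, smul_zero, lie_zero, smul_zero, add_zero, add_zero, one_smul, neg_smul,
    one_smul, ← lie_skew y x, lie_neg]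

theorem cube_isPMapping : IsPMapping 3 (ZMod 3) Gl cube where
  smul a x := smul_pow a x 3
  ad x y := (ad3 x y).symm
  add x y := by
    have h3 : (3 : Gl) = 0 := by decide
    rw [jacobson_three]
    have h := jac_char3 h3 x y
    simp only [LieRing.of_associative_ring_bracket]
    rw [← h]
    unfold cube
    abel

theorem key : ∃ R : NonUnitalSubalgebra (ZMod 3) (Restricted 3 (ZMod 3) cube),
      Nonempty (R ≃+* Matrix (Fin 2) (Fin 2) (ZMod 3)) ∧ IsPI R ∧
      IsLeast {n : ℕ | 1 ≤ n ∧ SatisfiesPower R (2 * n)} 2 := by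
  have z3 : (3 : ZMod 3) = 0 := by decide
  have char3 : ∀ (A : Type) [Ring A] [Algebra (ZMod 3) A], (3 : A) = 0 := by
    intro A _ _
    have h : algebraMap (ZMod 3) A 3 = 0 := by rw [z3, map_zero]
    rw [← h]; exact (map_ofNat (algebraMap (ZMod 3) A) 3).symm
  let rel : UniversalEnvelopingAlgebra (ZMod 3) M2 → UniversalEnvelopingAlgebra (ZMod 3) M2 → Prop :=
    fun a b => ∃ x : M2, a = UniversalEnvelopingAlgebra.ι (ZMod 3) x ^ 3 ∧
      b = UniversalEnvelopingAlgebra.ι (ZMod 3) (cube x)
  let π : UniversalEnvelopingAlgebra (ZMod 3) M2 →ₐ[ZMod 3] RingQuot rel :=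
    RingQuot.mkAlgHom (ZMod 3) rel
  let j : M2 → RingQuot rel := fun x => π (UniversalEnvelopingAlgebra.ι (ZMod 3) x)
  have jadd : ∀ x y, j (x + y) = j x + j y := by
    intro x y; simp only [j, map_add]
  have jsub : ∀ x y, j (x - y) = j x - j y := by
    intro x y; simp only [j, map_sub]
  have jbr : ∀ x y, j x * j y - j y * j x = j (x * y - y * x) := by
    intro x y
    have : x * y - y * x = ⁅x, y⁆ := by rw [LieRing.of_associative_ring_bracket]
    rw [this]
    simp only [j]
    rw [LieHom.map_lie, LieRing.of_associative_ring_bracket, map_sub, map_mul, map_mul]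
  have jcube : ∀ x, j x * j x * j x = j (x * x * x) := by
    intro x
    have h1 : π (UniversalEnvelopingAlgebra.ι (ZMod 3) x ^ 3)
        = π (UniversalEnvelopingAlgebra.ι (ZMod 3) (x ^ 3)) :=
      RingQuot.mkAlgHom_rel (ZMod 3) ⟨x, rfl, rfl⟩
    rw [map_pow] at h1
    have h2 : x * x * x = x ^ 3 := by rw [pow_succ, pow_succ, pow_one]
    rw [h2]
    simp only [j]
    rw [← h1, pow_succ, pow_succ, pow_one]
  let E : M2 := !![0,1;0,0]
  let G : M2 := !![0,0;1,0]
  let D : M2 := !![1,0;0,-1]
  have c3 : (3 : RingQuot rel) = 0 := char3 _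
  obtain ⟨hx2, hy2, hxy4⟩ := exists_xy (j E) (j G) (j D) (-(j D * j D + j D)) c3
    (by
      have := jbr E G
      have h2 : E * G - G * E = D := by decide
      rw [h2] at this
      rw [← this]; abel)
    (by
      have := jbr D E
      have h2 : D * E - E * D = E + E := by decide
      rw [h2, jadd] at this
      calc j D * j E = j E * j D + (j D * j E - j E * j D) := by abel
        _ = _ := by rw [this]; noncomm_ring)
    (by
      have := jbr D G
      have h2 : D * G - G * D = 0 - (G + G) := by decide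
      rw [h2, jsub, jadd] at this
      have h0 : j 0 = 0 := by simp [j]
      calc j D * j G = j G * j D + (j D * j G - j G * j D) := by abel
        _ = _ := by rw [this, h0]; noncomm_ring)
    (by
      rw [jcube]
      have h2 : D * D * D = D := by decide
      rw [h2])
    (by
      rw [jcube]
      have h2 : G * G * G = 0 := by decide
      rw [h2]; simp [j])
    rfl
  obtain ⟨u, hu, hu00, hu01, hu10, hu11⟩ := mat_units _ _ hx2 hy2 hxy4
  -- the representation
  let ρ0 : UniversalEnvelopingAlgebra (ZMod 3) M2 →ₐ[ZMod 3] M2 :=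
    UniversalEnvelopingAlgebra.lift (ZMod 3) (LieHom.id : M2 →ₗ⁅ZMod 3⁆ M2)
  have hρ0 : ∀ x : M2, ρ0 (UniversalEnvelopingAlgebra.ι (ZMod 3) x) = x := by
    intro x
    simp [ρ0]
  let ρ : RingQuot rel →ₐ[ZMod 3] M2 := RingQuot.liftAlgHom (ZMod 3) ⟨ρ0, by
    rintro a b ⟨x, rfl, rfl⟩
    rw [map_pow, hρ0, hρ0]⟩
  have hρ : ∀ x : M2, ρ (j x) = x := by
    intro x
    simp only [ρ, j, π]
    rw [RingQuot.liftAlgHom_mkAlgHom_apply]
    exact hρ0 x
  have hρu : ∀ i k, ρ (u i k) = Matrix.single i k 1 := by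
    intro i k
    have hρx : ρ (-(j D * j D + j D) * j E) = E := by
      simp only [map_mul, map_neg, map_add, hρ]; decide
    have hρy : ρ (j G * -(j D * j D + j D)) = G := by
      simp only [map_mul, map_neg, map_add, hρ]; decide
    have g00 : ∀ X Y : RingQuot rel, ρ ((X * Y) ^ 3) = (ρ X * ρ Y) ^ 3 := by
      intro X Y; simp only [map_mul, map_pow]
    have g01 : ∀ X Y : RingQuot rel, ρ ((X * Y) ^ 2 * X) = (ρ X * ρ Y) ^ 2 * ρ X := by
      intro X Y; simp only [map_mul, map_pow]
    have g10 : ∀ X Y : RingQuot rel, ρ (Y * (X * Y) ^ 3) = ρ Y * (ρ X * ρ Y) ^ 3 := by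
      intro X Y; simp only [map_mul, map_pow]
    have g11 : ∀ X Y : RingQuot rel, ρ (Y * (X * Y) ^ 2 * X) = ρ Y * (ρ X * ρ Y) ^ 2 * ρ X := by
      intro X Y; simp only [map_mul, map_pow]
    fin_cases i <;> fin_cases k
    · show ρ (u 0 0) = _
      rw [hu00, g00, hρx, hρy]; decide
    · show ρ (u 0 1) = _
      rw [hu01, g01, hρx, hρy]; decide
    · show ρ (u 1 0) = _
      rw [hu10, g10, hρx, hρy]; decide
    · show ρ (u 1 1) = _
      rw [hu11, g11, hρx, hρy]; decide
  let φ : M2 →ₙₐ[ZMod 3] RingQuot rel :=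
    { toFun := fun X => ∑ i, ∑ k, X i k • u i k
      map_smul' := by
        intro a X
        simp only [Matrix.smul_apply, smul_eq_mul, mul_smul, Finset.smul_sum, MonoidHom.id_apply]
      map_zero' := by simp
      map_add' := by
        intro X Y
        simp only [Matrix.add_apply, add_smul, Finset.sum_add_distrib]
      map_mul' := by
        intro X Y
        simp only [Matrix.mul_apply, Fin.sum_univ_two, add_smul, mul_add, add_mul,
          smul_mul_assoc, mul_smul_comm, hu, smul_smul]
        simp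
        module }
  have hφ : ∀ X, φ X = ∑ i, ∑ k, X i k • u i k := fun _ => rfl
  have hρφ : ∀ X, ρ (φ X) = X := by
    intro X
    rw [hφ, map_sum]
    simp only [map_sum, map_smul, hρu]
    ext a b
    fin_cases a <;> fin_cases b <;> simp [Fin.sum_univ_two, Matrix.single]
  have hS4 : ∀ r : Fin 4 → RingQuot rel, (∀ i, r i ∈ NonUnitalAlgHom.range φ) →
      (∑ σ : Equiv.Perm (Fin 4),
            ((Equiv.Perm.sign σ : ℤˣ) : ℤ) • (List.ofFn fun i => r (σ i)).prod) = 0 := by
    intro r hr
    have : ∀ i, ∃ X : M2, φ X = r i := fun i => hr i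
    choose X hX using this
    have h1 : ∀ σ : Equiv.Perm (Fin 4), ((Equiv.Perm.sign σ : ℤˣ) : ℤ) •
        (List.ofFn fun i => r (σ i)).prod
        = φ (((Equiv.Perm.sign σ : ℤˣ) : ℤ) • (List.ofFn fun i => X (σ i)).prod) := by
      intro σ
      rw [map_zsmul, ← prod_ofFn_hom φ 3 (fun i => X (σ i))]
      congr 3
      funext i
      rw [hX]
    rw [Finset.sum_congr rfl (fun σ _ => h1 σ), ← map_sum, s4_zero, map_zero]
  refine ⟨NonUnitalAlgHom.range φ, ⟨?_⟩, ⟨4, _, s4_free_ne, ?_⟩, ⟨⟨one_le_two, 1, le_refl _, ?_⟩, ?_⟩⟩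
  · refine RingEquiv.symm (RingEquiv.ofBijective (R := Gl)
      ({ toFun := fun X => ⟨φ X, ⟨X, rfl⟩⟩
         map_mul' := fun X Y => Subtype.ext (map_mul φ X Y)
         map_add' := fun X Y => Subtype.ext (map_add φ X Y)
         map_zero' := Subtype.ext (map_zero φ) } : Gl →ₙ+* NonUnitalAlgHom.range φ) ⟨?_, ?_⟩)
    · intro X Y hXY
      have h1 : φ X = φ Y := congrArg Subtype.val hXY
      rw [← hρφ X, ← hρφ Y, h1]
    · rintro ⟨_, X, rfl⟩
      exact ⟨X, rfl⟩
  · intro r hr
    rw [map_sum]
    rw [← hS4 r hr]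
    refine Finset.sum_congr rfl ?_
    intro σ _
    rw [map_zsmul, map_list_prod, List.map_ofFn]
    congr 3
    funext i
    simp
  · intro r hr
    rw [pow_one]
    exact hS4 r hr
  · rintro m ⟨hm1, t, ht, h⟩
    by_contra hm2
    have : m = 1 := by omega
    subst this
    have h1 := h ![φ (Matrix.single 0 1 1), φ (Matrix.single 1 0 1)] (by
      intro i
      fin_cases i
      · exact ⟨_, rfl⟩
      · exact ⟨_, rfl⟩)
    have h2 := congrArg ρ h1
    unfold standard at h2
    rw [map_pow, map_zero, map_sum] at h2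
    have h3 : (∑ σ : Equiv.Perm (Fin 2), ((Equiv.Perm.sign σ : ℤˣ) : ℤ) •
        (List.ofFn fun i => (![Matrix.single 0 1 1, Matrix.single 1 0 1] : Fin 2 → M2) (σ i)).prod)
        = !![1,0;0,-1] := by decide +kernel
    have h4 : ∑ x : Equiv.Perm (Fin (2 * 1)), ρ (((Equiv.Perm.sign x : ℤˣ) : ℤ) •
        (List.ofFn fun i => (![φ (Matrix.single 0 1 1), φ (Matrix.single 1 0 1)] :
          Fin 2 → RingQuot rel) (x i)).prod) = !![1,0;0,-1] := by
      rw [← h3]
      refine Finset.sum_congr rfl ?_
      intro σ _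
      rw [map_zsmul, map_list_prod, List.map_ofFn]
      congr 3
      funext i
      simp only [Function.comp]
      generalize (σ i : Fin 2) = q
      fin_cases q
      · simp [hρφ]
      · simp [hρφ]
    rw [h4] at h2
    have h5 : ∀ t : ℕ, ((!![1,0;0,-1] : M2) ^ t) 0 0 = 1 := by
      intro t
      induction t with
      | zero => simp
      | succ t ih =>
        rw [pow_succ, Matrix.mul_apply, Fin.sum_univ_two, ih]
        simp
    have h6 := h5 t
    rw [h2] at h6
    simp at h6

/-- The 2-by-2 matrices over `F_3` with the cube as 3-mapping form a Lie 3-algebra `L`, and `u(L)`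
has a subalgebra `R` isomorphic to the algebra of the 2-by-2 matrices over `F_3`; it is a PI algebra
and the least positive `n` such that `R` satisfies a power of the standard polynomial of degree
`2 * n` is `2`, which is not a power of `3`. -/
theorem result : IsPMapping 3 (ZMod 3) Gl cube ∧
    ∃ R : NonUnitalSubalgebra (ZMod 3) U, IsMatrixRing R ∧ IsPI R ∧
      IsLeast {n : ℕ | 1 ≤ n ∧ SatisfiesPower R (2 * n)} 2 ∧ ∀ k : ℕ, 2 ≠ 3 ^ k := by
  obtain ⟨R, h1, h2, h3⟩ := key
  exact ⟨cube_isPMapping, R, h1, h2, h3, two_ne_pow⟩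

end Pool.Agent.Results.MP_cacfbf_al.MatricesInGlTwo
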